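import Mathlib

namespace Pool.Agent.Results.MP_af603d_lc.Full

open Set

/-- `L` maps by a weakly order-preserving surjection onto each nonempty suborder. -/
def StronglySurjective (L : Type) [LinearOrder L] : Prop :=
  ∀ K : Set L, K.Nonempty → ∃ f : L → K, Monotone f ∧ Function.Surjective f

/-- Some countable subset is dense in the order topology. -/
def Separable (L : Type) [LinearOrder L] : Prop :=
  ∃ D : Set L, D.Countable ∧ @Dense L (Preorder.topology L) D

theorem retr : ∀ A : Finset (Fin 3), A.Nonempty →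
    ∃ r : Fin 3 → Fin 3, Monotone r ∧ (∀ i, r i ∈ A) ∧ ∀ i ∈ A, r i = i := by
  decide

theorem result (L : Type) [LinearOrder L] (hu : Uncountable L) (hL : StronglySurjective L) :
    ∃ (M : Type) (_ : LinearOrder M), Uncountable M ∧ StronglySurjective M ∧ ¬ Separable M := by
  classical
  refine ⟨L ×ₗ Fin 3, inferInstance, ?_, fun K hK => ?_, ?_⟩
  · exact (show Function.Injective fun l : L => toLex (l, (0 : Fin 3)) from
      fun a b h => congrArg (fun p => (ofLex p).1) h).uncountable
  · obtain ⟨f, f1, f2⟩ := hL ((fun p => (ofLex p).1) '' K) (hK.image _)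
    choose s hs using f2
    choose r r1 r2 r3 using fun k : ((fun p : L ×ₗ Fin 3 => (ofLex p).1) '' K) =>
      retr (Finset.univ.filter fun i => toLex (k.1, i) ∈ K) (by
        obtain ⟨p, p1, p2⟩ := k.2
        exact ⟨(ofLex p).2, by simpa [← p2] using p1⟩)
    let j : L ×ₗ Fin 3 → Fin 3 := fun p =>
      if (ofLex p).1 < s (f (ofLex p).1) then 0
      else if (ofLex p).1 = s (f (ofLex p).1) then (ofLex p).2 else 2
    refine ⟨fun p => ⟨toLex ((f (ofLex p).1).1, r (f (ofLex p).1) (j p)),
      by simpa using r2 _ (j p)⟩, fun p q hpq => ?_, fun k => ?_⟩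
    · have h1 : (ofLex p).1 ≤ (ofLex q).1 := Prod.Lex.monotone_fst _ _ hpq
      refine Prod.Lex.toLex_le_toLex.2 ((f1 h1).eq_or_lt.symm.imp (fun h => h) fun h => ?_)
      refine ⟨congrArg Subtype.val h, ?_⟩
      simp only [← h]
      refine r1 _ ?_
      simp only [j, ← h]
      rcases Prod.Lex.le_iff.1 hpq with c | c
      · split_ifs with a b d e g <;> first | exact Fin.zero_le _ | exact Fin.le_last _ | grind
      · split_ifs with a b d e g <;> first | exact Fin.zero_le _ | exact Fin.le_last _ | grind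
    · let k₀ : ((fun p : L ×ₗ Fin 3 => (ofLex p).1) '' K) := ⟨_, k.1, k.2, rfl⟩
      refine ⟨toLex (s k₀, (ofLex k.1).2), Subtype.ext ?_⟩
      simp only [j, ofLex_toLex, hs, lt_irrefl, if_false, if_true]
      rw [r3 k₀ _ (by simpa [k₀] using k.2)]
      rfl
  · rintro ⟨D, d1, d2⟩
    letI := Preorder.topology (L ×ₗ Fin 3)
    haveI : OrderTopology (L ×ₗ Fin 3) := ⟨rfl⟩
    have : ∀ l : L, toLex (l, (1 : Fin 3)) ∈ D := fun l => by
      obtain ⟨p, p1, p2, p3⟩ := d2.exists_mem_open
        (isOpen_Ioo (a := toLex (l, (0 : Fin 3))) (b := toLex (l, (2 : Fin 3))))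
        ⟨toLex (l, 1), by simp [Prod.Lex.toLex_lt_toLex]⟩
      obtain ⟨⟨a, i⟩, rfl⟩ := toLex.surjective p
      rw [Prod.Lex.toLex_lt_toLex] at p2 p3
      have : a = l ∧ i = 1 := by grind
      rwa [this.1, this.2] at p1
    exact not_countable_univ (MapsTo.countable_of_injOn (fun l _ => this l)
      (fun a _ b _ h => congrArg (fun p => (ofLex p).1) h) d1)

end Pool.Agent.Results.MP_af603d_lc.Full
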